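import Pool.Agent.Helper36.KL.Goals

/-!
Packet UNQ of the project KV: uniqueness, mass and energy conservation.
-/

namespace Pool.Agent.Helper65.KL

open Set Filter Topology MeasureTheory
open Pool.Agent.Helper36.KL
open scoped ContDiff

/-- a function with nonpositive modified derivative -/
lemma gron {f f' : ℝ → ℝ} {a b C : ℝ}
    (h : ∀ t ∈ Icc a b, HasDerivWithinAt f (f' t) (Icc a b) t) (hb : ∀ t ∈ Icc a b, f' t ≤ C * f t)
    (h0 : f a ≤ 0) : ∀ t ∈ Icc a b, f t ≤ 0 := by
  intro t ht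
  have hd : ∀ t ∈ Icc a b, HasDerivWithinAt (fun s => Real.exp (-(C * s)) * f s)
      (Real.exp (-(C * t)) * (f' t - C * f t)) (Icc a b) t := by
    intro t ht
    have e1 : HasDerivWithinAt (fun s : ℝ => Real.exp (-(C * s))) (Real.exp (-(C * t)) * -(C * 1))
        (Icc a b) t := (((hasDerivWithinAt_id t (Icc a b)).const_mul C).fun_neg).exp
    refine (e1.mul (h t ht)).congr_deriv ?_
    ring
  have hanti : AntitoneOn (fun s => Real.exp (-(C * s)) * f s) (Icc a b) := by
    refine antitoneOn_of_deriv_nonpos (convex_Icc a b)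
      (fun t ht => (hd t ht).continuousWithinAt) ?_ ?_
    · intro t ht
      rw [interior_Icc] at ht
      exact ((hd t (Ioo_subset_Icc_self ht)).hasDerivAt
        (Icc_mem_nhds ht.1 ht.2)).differentiableAt.differentiableWithinAt
    · intro t ht
      rw [interior_Icc] at ht
      rw [((hd t (Ioo_subset_Icc_self ht)).hasDerivAt (Icc_mem_nhds ht.1 ht.2)).deriv]
      have := hb t (Ioo_subset_Icc_self ht)
      exact mul_nonpos_of_nonneg_of_nonpos (Real.exp_pos _).le (by linarith)
  have hab : a ≤ b := ht.1.trans ht.2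
  have h1 := hanti (left_mem_Icc.2 hab) ht ht.1
  simp only at h1
  have h2 : Real.exp (-(C * a)) * f a ≤ 0 :=
    mul_nonpos_of_nonneg_of_nonpos (Real.exp_pos _).le h0
  have h3 : Real.exp (-(C * t)) * f t ≤ 0 := h1.trans h2
  by_contra hc
  push Not at hc
  have := mul_pos (Real.exp_pos (-(C * t))) hc
  linarith

lemma const {f : ℝ → ℝ} {a b : ℝ} (h : ∀ t ∈ Icc a b, HasDerivWithinAt f 0 (Icc a b) t) :
    ∀ t ∈ Icc a b, f t = f a := by
  intro t ht
  refine constant_of_derivWithin_zero (fun t ht => (h t ht).differentiableWithinAt) ?_ t ht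
  intro x hx
  have hab : a < b := hx.1.trans_lt hx.2
  exact (h x (Ico_subset_Icc_self hx)).derivWithin
    (uniqueDiffOn_Icc hab x (Ico_subset_Icc_self hx))

lemma self_zero {f : ℝ → ℝ} (hf : f ∈ HI) : ∫ x, iteratedDeriv 1 f x * f x = 0 := by
  have h := ibp hf hf
  have h2 : ∫ x, f x * iteratedDeriv 1 f x = ∫ x, iteratedDeriv 1 f x * f x :=
    integral_congr_ae (ae_of_all _ fun x => mul_comm _ _)
  rw [h2] at h
  linarith

lemma deriv_pow_apply {u : ℝ → ℝ} (hu : u ∈ HI) (n : ℕ) (x : ℝ) :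
    iteratedDeriv 1 (u ^ (n + 1)) x = (n + 1) * u x ^ n * iteratedDeriv 1 u x := by
  have hu' : HasDerivAt u (iteratedDeriv 1 u x) x := by
    simpa using hasDerivAt_iter hu.1 0 x
  rw [iteratedDeriv_one, (hu'.pow (n + 1)).deriv]
  push_cast
  simp

lemma pow_zero_int {u : ℝ → ℝ} (hu : u ∈ HI) : ∫ x, u x ^ 5 * iteratedDeriv 1 u x = 0 := by
  have h := self_zero (pow_mem hu 2)
  have h2 : ∫ x, iteratedDeriv 1 (u ^ (2 + 1)) x * (u ^ (2 + 1)) x =
      3 * ∫ x, u x ^ 5 * iteratedDeriv 1 u x := by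
    rw [← integral_const_mul]
    refine integral_congr_ae (ae_of_all _ fun x => ?_)
    simp only [deriv_pow_apply hu 2 x, Pi.pow_apply]
    push_cast
    ring
  rw [h2] at h
  linarith

lemma int5 {u v : ℝ → ℝ} (hu : u ∈ HI) (hv : v ∈ HI) : Integrable fun x => u x ^ 5 * v x :=
  int_mul (pow_mem hu 4) hv

/-- `z = u_xx + u^5` -/
noncomputable def zz (u : ℝ → ℝ) : ℝ → ℝ := iteratedDeriv 2 u + u ^ 5

lemma zz_mem {u : ℝ → ℝ} (hu : u ∈ HI) : zz u ∈ HI := HI.add_mem (iter_mem hu 2) (pow_mem hu 4)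

lemma Fun_eq {u : ℝ → ℝ} (hu : u ∈ HI) : Fun u = -iteratedDeriv 1 (zz u) := by
  unfold zz Fun
  rw [iter_add (iter_mem hu 2).1 (pow_mem hu 4).1, iter_iter, neg_add, sub_eq_add_neg]

lemma mass_zero {u : ℝ → ℝ} (hu : u ∈ HI) : ∫ x, Fun u x * u x = 0 := by
  have h1 : ∫ x, Fun u x * u x = ∫ x, zz u x * iteratedDeriv 1 u x := by
    have h2 := ibp (zz_mem hu) hu
    rw [Fun_eq hu]
    have h3 : ∫ x, (-iteratedDeriv 1 (zz u)) x * u x = -∫ x, iteratedDeriv 1 (zz u) x * u x := by
      rw [← integral_neg]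
      refine integral_congr_ae (ae_of_all _ fun x => ?_)
      simp only [Pi.neg_apply]
      ring
    rw [h3, h2, neg_neg]
  rw [h1]
  have h4 : ∫ x, zz u x * iteratedDeriv 1 u x = (∫ x, iteratedDeriv 1 (iteratedDeriv 1 u) x *
      iteratedDeriv 1 u x) + ∫ x, u x ^ 5 * iteratedDeriv 1 u x := by
    rw [← integral_add (int_mul (iter_mem (iter_mem hu 1) 1) (iter_mem hu 1))
      (int5 hu (iter_mem hu 1))]
    refine integral_congr_ae (ae_of_all _ fun x => ?_)
    simp only [zz, iter_iter, Pi.add_apply, Pi.pow_apply]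
    ring
  rw [h4, self_zero (iter_mem hu 1), pow_zero_int hu, add_zero]

lemma energy_zero {u : ℝ → ℝ} (hu : u ∈ HI) :
    (∫ x, iteratedDeriv 1 (Fun u) x * iteratedDeriv 1 u x) - ∫ x, u x ^ 5 * Fun u x = 0 := by
  have h1 := ibp (Fun_mem hu) (iter_mem hu 1)
  have h2 : (∫ x, Fun u x * iteratedDeriv 1 (iteratedDeriv 1 u) x) + ∫ x, u x ^ 5 * Fun u x =
      -∫ x, iteratedDeriv 1 (zz u) x * zz u x := by
    rw [← integral_neg, ← integral_add (int_mul (Fun_mem hu) (iter_mem (iter_mem hu 1) 1))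
      (int5 hu (Fun_mem hu))]
    refine integral_congr_ae (ae_of_all _ fun x => ?_)
    simp only [Fun_eq hu]
    simp only [zz, iter_iter, Pi.add_apply, Pi.pow_apply, Pi.neg_apply]
    ring
  rw [self_zero (zz_mem hu), neg_zero] at h2
  rw [h1]
  linarith

lemma BB0 (u v : X) : BB 0 u v = ip u v := by
  rw [BB_apply, ip_apply]
  simp

lemma ip_symm (u v : X) : ip u v = ip v u := by
  rw [ip_apply, ip_apply]
  exact integral_congr_ae (ae_of_all _ fun x => mul_comm _ _)

lemma bdd2 {a b : ℝ} {f f' : ℝ → ℝ → ℝ} (h : C1 a b f f') :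
    ∃ L, ∀ (t : ℝ) (ht : t ∈ Icc a b), BB 2 (⟨f t, h.mem t ht⟩ : X) ⟨f t, h.mem t ht⟩ ≤ L := by
  choose L hL using h.bdd
  refine ⟨∑ k ∈ Finset.range (2 + 1), L k, fun t ht => ?_⟩
  rw [BB_apply]
  refine Finset.sum_le_sum fun k _ => ?_
  refine le_trans (le_of_eq ?_) (hL k t ht)
  exact integral_congr_ae (ae_of_all _ fun x => (sq _).symm)

theorem unq : G_UNQ := by
  intro hC hPR hLIP
  obtain ⟨hsp, hder, -, -, -, hint⟩ := hC
  obtain ⟨hL1, -⟩ := hLIP hPR
  refine ⟨?_, ?_, ?_⟩
  · intro a b u v hu hv h0 t ht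
    obtain ⟨Lu, hLu⟩ := bdd2 hu
    obtain ⟨Lv, hLv⟩ := bdd2 hv
    obtain ⟨C, hC⟩ := hL1 (max Lu Lv)
    have key := gron (f := fun s => (∫ x, u s x * u s x) - 2 * (∫ x, u s x * v s x) +
        ∫ x, v s x * v s x)
      (f' := fun t => ((∫ x, Fun (u t) x * u t x) + ∫ x, u t x * Fun (u t) x) -
        2 * ((∫ x, Fun (u t) x * v t x) + ∫ x, u t x * Fun (v t) x) +
        ((∫ x, Fun (v t) x * v t x) + ∫ x, v t x * Fun (v t) x)) (a := a) (b := b) (C := 2 * C)
      ?_ ?_ ?_ t ht
    · have hut := hu.mem t ht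
      have hvt := hv.mem t ht
      have hw : u t - v t ∈ HI := HI.sub_mem hut hvt
      have e1 : ∫ x, (u t - v t) x ^ 2 = (∫ x, u t x * u t x) - 2 * (∫ x, u t x * v t x) +
          ∫ x, v t x * v t x := by
        have i1 : Integrable fun x => u t x * u t x - 2 * (u t x * v t x) :=
          (int_mul hut hut).sub ((int_mul hut hvt).const_mul 2)
        rw [← integral_const_mul, ← integral_sub (int_mul hut hut) ((int_mul hut hvt).const_mul 2),
          ← integral_add i1 (int_mul hvt hvt)]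
        refine integral_congr_ae (ae_of_all _ fun x => ?_)
        simp only [Pi.sub_apply]
        ring
      have e2 : ∫ x, (u t - v t) x ^ 2 = 0 := by
        refine le_antisymm ?_ (integral_nonneg fun x => sq_nonneg _)
        rw [e1]
        exact key
      have e3 := (integral_eq_zero_iff_of_nonneg (fun x => sq_nonneg _) (int_sq hw)).1 e2
      have e4 : (fun x => (u t - v t) x ^ 2) = 0 :=
        Measure.eq_of_ae_eq e3 ((hw.1.continuous).pow 2) continuous_const
      funext x
      have e5 := congrFun e4 x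
      simp only [Pi.sub_apply, Pi.zero_apply, ne_eq, OfNat.ofNat_ne_zero, not_false_eq_true,
        pow_eq_zero_iff] at e5
      linarith
    · intro t ht
      exact ((hint a b _ _ _ _ hu hu t ht).sub ((hint a b _ _ _ _ hu hv t ht).const_mul 2)).add
        (hint a b _ _ _ _ hv hv t ht)
    · intro t ht
      have h1 := hC ⟨u t, hu.mem t ht⟩ ⟨v t, hv.mem t ht⟩ ((hLu t ht).trans (le_max_left _ _))
        ((hLv t ht).trans (le_max_right _ _))
      obtain ⟨U, hU⟩ : ∃ U : X, U = ⟨u t, hu.mem t ht⟩ := ⟨_, rfl⟩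
      obtain ⟨V, hV⟩ : ∃ V : X, V = ⟨v t, hv.mem t ht⟩ := ⟨_, rfl⟩
      rw [← hU, ← hV, BB0, BB0] at h1
      have hu1 : u t = U.1 := by rw [hU]
      have hv1 : v t = V.1 := by rw [hV]
      rw [hu1, hv1]
      show ((ip (FX U) U) + ip U (FX U)) - 2 * (ip (FX U) V + ip U (FX V)) +
        (ip (FX V) V + ip V (FX V)) ≤ 2 * C * (ip U U - 2 * ip U V + ip V V)
      simp only [map_sub, LinearMap.sub_apply] at h1
      have s1 := ip_symm (FX U) U
      have s2 := ip_symm (FX U) V
      have s3 := ip_symm (FX V) V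
      have s4 := ip_symm U V
      rw [s1, s2, s3]
      rw [s4] at h1 ⊢
      linarith
    · rw [← h0]
      linarith
  · intro a b u hu t ht
    have h1 := const (f := fun s => ∫ x, u s x * u s x) (a := a) (b := b) ?_ t ht
    · have e : ∀ s, ∫ x, u s x ^ 2 = ∫ x, u s x * u s x := fun s =>
        integral_congr_ae (ae_of_all _ fun x => sq _)
      rw [e, e]
      exact h1
    · intro t ht
      refine (hint a b _ _ _ _ hu hu t ht).congr_deriv ?_
      have h2 := mass_zero (hu.mem t ht)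
      have h3 : ∫ x, u t x * Fun (u t) x = ∫ x, Fun (u t) x * u t x :=
        integral_congr_ae (ae_of_all _ fun x => mul_comm _ _)
      rw [h3, h2, add_zero]
  · intro a b u hu t ht
    have hd := hder a b _ _ 1 hu
    have h2 := (hsp a b _ _ _ _ hu hu).2
    have h3 := (hsp a b _ _ _ _ h2 hu).2
    have h1 := const (f := fun s => (∫ x, iteratedDeriv 1 (u s) x * iteratedDeriv 1 (u s) x) / 2 -
      (∫ x, (u s * u s * u s) x * (u s * u s * u s) x) / 6) (a := a) (b := b) ?_ t ht
    · have e : ∀ s ∈ Icc a b, (∫ x, iteratedDeriv 1 (u s) x ^ 2 / 2 - u s x ^ 6 / 6) =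
          (∫ x, iteratedDeriv 1 (u s) x * iteratedDeriv 1 (u s) x) / 2 -
          (∫ x, (u s * u s * u s) x * (u s * u s * u s) x) / 6 := by
        intro s hs
        have m := hu.mem s hs
        rw [← integral_div, ← integral_div, ← integral_sub
          ((int_mul (iter_mem m 1) (iter_mem m 1)).div_const 2)
          ((int_mul (mul_mem (mul_mem m m) m) (mul_mem (mul_mem m m) m)).div_const 6)]
        refine integral_congr_ae (ae_of_all _ fun x => ?_)
        simp only [Pi.mul_apply]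
        ring
      rw [e t ht, e a (left_mem_Icc.2 (ht.1.trans ht.2))]
      exact h1
    · intro t ht
      have m := hu.mem t ht
      have m' := Fun_mem m
      refine (((hint a b _ _ _ _ hd hd t ht).div_const 2).sub
        ((hint a b _ _ _ _ h3 h3 t ht).div_const 6)).congr_deriv ?_
      have k0 := energy_zero m
      have k1 : ∫ x, iteratedDeriv 1 (u t) x * iteratedDeriv 1 (Fun (u t)) x =
          ∫ x, iteratedDeriv 1 (Fun (u t)) x * iteratedDeriv 1 (u t) x :=
        integral_congr_ae (ae_of_all _ fun x => mul_comm _ _)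
      have k2 : ∫ x, ((Fun (u t) * u t + u t * Fun (u t)) * u t + u t * u t * Fun (u t)) x *
          (u t * u t * u t) x = 3 * ∫ x, u t x ^ 5 * Fun (u t) x := by
        rw [← integral_const_mul]
        refine integral_congr_ae (ae_of_all _ fun x => ?_)
        simp only [Pi.mul_apply, Pi.add_apply]
        ring
      have k3 : ∫ x, (u t * u t * u t) x *
          ((Fun (u t) * u t + u t * Fun (u t)) * u t + u t * u t * Fun (u t)) x =
          3 * ∫ x, u t x ^ 5 * Fun (u t) x := by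
        rw [← k2]
        exact integral_congr_ae (ae_of_all _ fun x => mul_comm _ _)
      rw [k1, k2, k3]
      linarith

end Pool.Agent.Helper65.KL
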